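import Pool.Agent.N641.VB.Stm2

set_option autoImplicit false

/-!
# Project VB (MP_5df2c5_lc): countably many theories with parameters

The proofs of `meas_term` and `meas_realize` are those of Pool/Agent/N649/KA/FO.lean.
-/

namespace Pool.Agent.N8.VB

open Set MeasureTheory FirstOrder FirstOrder.Language
open Pool.Agent.N641.VB

namespace ST1Aux

variable {L : FirstOrder.Language.{0, 0}}

section meas

variable {Y : Type} [MeasurableSpace Y]

/-- values of terms are measurable -/
theorem meas_term {f : Y → L.Structure ℕ}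
    (hF : ∀ (n : ℕ) (F : L.Functions n) (v : Fin n → ℕ) (b : ℕ),
      MeasurableSet {y | @Structure.funMap L ℕ (f y) n F v = b}) {β : Type}
    (c : β → ℕ) (t : L.Term β) : ∀ b : ℕ,
      MeasurableSet {y | @Term.realize L ℕ (f y) _ c t = b} := by
  induction t with
  | var i =>
    intro b
    show MeasurableSet {_y : Y | c i = b}
    exact MeasurableSet.const _
  | @func n g ts ih =>
    intro b
    have e1 : {y | @Term.realize L ℕ (f y) _ c (Term.func g ts) = b} =
        ⋃ v : Fin n → ℕ, ((⋂ i, {y | @Term.realize L ℕ (f y) _ c (ts i) = v i}) ∩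
          {y | @Structure.funMap L ℕ (f y) n g v = b}) := by
      ext y
      simp only [mem_iUnion, mem_inter_iff, mem_iInter]
      constructor
      · intro h
        exact ⟨fun i => @Term.realize L ℕ (f y) _ c (ts i), fun i => rfl, h⟩
      · rintro ⟨v, h1, h2⟩
        have h3 : (fun i => @Term.realize L ℕ (f y) _ c (ts i)) = v := funext h1
        show @Structure.funMap L ℕ (f y) n g (fun i => @Term.realize L ℕ (f y) _ c (ts i)) = b
        rw [h3]
        exact h2
    rw [e1]
    exact MeasurableSet.iUnion fun v => (MeasurableSet.iInter fun i => ih i (v i)).inter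
      (hF n g v b)

/-- satisfaction is measurable -/
theorem meas_realize {f : Y → L.Structure ℕ}
    (hF : ∀ (n : ℕ) (F : L.Functions n) (v : Fin n → ℕ) (b : ℕ),
      MeasurableSet {y | @Structure.funMap L ℕ (f y) n F v = b})
    (hf : ∀ (n : ℕ) (R : L.Relations n) (v : Fin n → ℕ),
      MeasurableSet {y | @Structure.RelMap L ℕ (f y) n R v}) {β : Type} {n : ℕ}
    (φ : L.BoundedFormula β n) (c : β → ℕ) (d : Fin n → ℕ) :
    MeasurableSet {y | @BoundedFormula.Realize L ℕ (f y) _ _ φ c d} := by
  induction φ with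
  | falsum =>
    have e1 : {y : Y | @BoundedFormula.Realize L ℕ (f y) _ _ BoundedFormula.falsum c d} = ∅ := rfl
    rw [e1]
    exact MeasurableSet.empty
  | @equal n t1 t2 =>
    have e1 : {y : Y | @BoundedFormula.Realize L ℕ (f y) _ _ (BoundedFormula.equal t1 t2) c d} =
        ⋃ b : ℕ, ({y | @Term.realize L ℕ (f y) _ (Sum.elim c d) t1 = b} ∩
          {y | @Term.realize L ℕ (f y) _ (Sum.elim c d) t2 = b}) := by
      ext y
      simp only [mem_iUnion, mem_inter_iff]
      constructor
      · intro h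
        have h1 : @Term.realize L ℕ (f y) _ (Sum.elim c d) t1 =
          @Term.realize L ℕ (f y) _ (Sum.elim c d) t2 := h
        exact ⟨_, rfl, h1.symm⟩
      · rintro ⟨b, h1, h2⟩
        show @Term.realize L ℕ (f y) _ (Sum.elim c d) t1 =
          @Term.realize L ℕ (f y) _ (Sum.elim c d) t2
        exact Eq.trans h1 (Eq.symm h2)
    rw [e1]
    exact MeasurableSet.iUnion fun b => (meas_term hF _ _ b).inter (meas_term hF _ _ b)
  | @rel n l R ts =>
    have e1 : {y : Y | @BoundedFormula.Realize L ℕ (f y) _ _ (BoundedFormula.rel R ts) c d} =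
        ⋃ v : Fin l → ℕ, ((⋂ i, {y | @Term.realize L ℕ (f y) _ (Sum.elim c d) (ts i) = v i}) ∩
          {y | @Structure.RelMap L ℕ (f y) l R v}) := by
      ext y
      simp only [mem_iUnion, mem_inter_iff, mem_iInter]
      constructor
      · intro h
        exact ⟨fun i => @Term.realize L ℕ (f y) _ (Sum.elim c d) (ts i), fun i => rfl, h⟩
      · rintro ⟨v, h1, h2⟩
        have h3 : (fun i => @Term.realize L ℕ (f y) _ (Sum.elim c d) (ts i)) = v := funext h1
        show @Structure.RelMap L ℕ (f y) l R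
          (fun i => @Term.realize L ℕ (f y) _ (Sum.elim c d) (ts i))
        rw [h3]
        exact h2
    rw [e1]
    exact MeasurableSet.iUnion fun v => (MeasurableSet.iInter fun i =>
      meas_term hF _ _ (v i)).inter (hf l R v)
  | @imp n f1 f2 h1 h2 =>
    have e1 : {y : Y | @BoundedFormula.Realize L ℕ (f y) _ _ (f1.imp f2) c d} =
        {y | @BoundedFormula.Realize L ℕ (f y) _ _ f1 c d}ᶜ ∪
          {y | @BoundedFormula.Realize L ℕ (f y) _ _ f2 c d} := by
      ext y
      show (_ → _) ↔ (¬ _) ∨ _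
      exact imp_iff_not_or
    rw [e1]
    exact (h1 d).compl.union (h2 d)
  | @all n g h =>
    have e1 : {y : Y | @BoundedFormula.Realize L ℕ (f y) _ _ g.all c d} =
        ⋂ k : ℕ, {y | @BoundedFormula.Realize L ℕ (f y) _ _ g c (Fin.snoc d k)} := by
      ext y
      rw [mem_iInter]
      exact Iff.rfl
    rw [e1]
    exact MeasurableSet.iInter fun k => h (Fin.snoc d k)

end meas

theorem countable_formula (hL : Countable L.Symbols) (n : ℕ) : Countable (L.Formula (Fin n)) := by
  have h3 : Cardinal.mk (Σ k, L.BoundedFormula (Fin n) k) ≤ Cardinal.aleph0 := by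
    refine BoundedFormula.card_le.trans ?_
    refine max_le le_rfl ?_
    refine Cardinal.add_le_aleph0.2 ⟨?_, ?_⟩
    · simp only [Cardinal.lift_id]
      exact Cardinal.mk_le_aleph0
    · simp only [Cardinal.lift_id]
      exact Cardinal.mk_le_aleph0
  have h4 : Countable (Σ k, L.BoundedFormula (Fin n) k) :=
    Cardinal.mk_le_aleph0_iff.1 h3
  exact (sigma_mk_injective (β := fun k => L.BoundedFormula (Fin n) k) (i := 0)).countable

theorem meas_SM {n : ℕ} (χ : L.Formula (Fin n)) (p : Fin n → ℕ) :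
    @MeasurableSet _ (SM L) {S : L.Structure ℕ | @Formula.Realize L ℕ S _ χ p} := by
  have h := @meas_realize L (L.Structure ℕ) (SM L) (fun S => S)
    (fun l F v b => MeasurableSpace.measurableSet_generateFrom (Or.inr ⟨l, F, v, b, rfl⟩))
    (fun l R v => MeasurableSpace.measurableSet_generateFrom (Or.inl ⟨l, R, v, rfl⟩))
    (Fin n) 0 χ p
  exact h _

theorem realize_iso {S S' : L.Structure ℕ} (e : @FirstOrder.Language.Equiv L ℕ ℕ S S') {n : ℕ}
    (χ : L.Formula (Fin n)) (p : Fin n → ℕ) :
    @Formula.Realize L ℕ S' _ χ (e ∘ p) ↔ @Formula.Realize L ℕ S _ χ p :=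
  @StrongHomClass.realize_formula L ℕ ℕ S S' (Fin n) _ _ _ e χ p

end ST1Aux

/-- ST1: countably many theories with parameters -/
theorem ST1 (SIL : S_SIL) : S_ST1 := by
  classical
  intro L hL T n hT
  have := ST1Aux.countable_formula hL n
  have : Nonempty (L.Formula (Fin n)) := ⟨⊥⟩
  obtain ⟨c, hc⟩ := exists_surjective_nat (L.Formula (Fin n))
  obtain ⟨P, hP⟩ := exists_surjective_nat (Fin n → ℕ)
  let V : L.Structure ℕ → ℕ → (ℕ → Bool) := fun S m k =>
    decide (@Formula.Realize L ℕ S _ (c k) (P m))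
  have h1 : ∀ m k, @MeasurableSet _ (SM L) {S : L.Structure ℕ | V S m k = true} := by
    intro m k
    have e1 : {S : L.Structure ℕ | V S m k = true} =
        {S : L.Structure ℕ | @Formula.Realize L ℕ S _ (c k) (P m)} := by
      ext S
      exact decide_eq_true_iff
    rw [e1]
    exact ST1Aux.meas_SM _ _
  have h2 : ∀ S S' : L.Structure ℕ, Nonempty (@FirstOrder.Language.Equiv L ℕ ℕ S S') →
      ∀ m, ∃ m', V S' m' = V S m := by
    rintro S S' ⟨e⟩ m
    obtain ⟨m', hm'⟩ := hP (e ∘ P m)
    refine ⟨m', funext fun k => decide_eq_decide.2 ?_⟩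
    rw [hm']
    exact ST1Aux.realize_iso e (c k) (P m)
  have h3 := SIL L hL T V h1 h2 hT
  refine (h3.image fun v : ℕ → Bool => {χ | ∃ k, c k = χ ∧ v k = true}).mono ?_
  rintro q ⟨S, p, hS, rfl⟩
  obtain ⟨m, rfl⟩ := hP p
  refine ⟨V S m, ⟨S, hS, m, rfl⟩, ?_⟩
  ext χ
  constructor
  · rintro ⟨k, rfl, h⟩
    exact of_decide_eq_true h
  · intro h
    obtain ⟨k, rfl⟩ := hc χ
    exact ⟨k, rfl, decide_eq_true h⟩

end Pool.Agent.N8.VB
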