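import Pool.Agent.N641.VB.Stm

set_option autoImplicit false

/-!
# Project VB (MP_5df2c5_lc): codes are invariant under isomorphisms of intervals
-/

namespace Pool.Agent.N8.VB.TRW

open Pool.Agent.N641.VB

/-- an isomorphism of intervals -/
structure Iso {A A' : Type} [BooleanAlgebra A] [BooleanAlgebra A'] (e : A → A') (a0 : A) :
    Prop where
  le : ∀ b ≤ a0, ∀ c ≤ a0, (b ≤ c ↔ e b ≤ e c)
  surj : ∀ c ≤ e a0, ∃ b ≤ a0, e b = c

section

variable {A A' : Type} [BooleanAlgebra A] [BooleanAlgebra A'] {e : A → A'} {a0 : A}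

theorem Iso.inj (h : Iso e a0) {b c : A} (hb : b ≤ a0) (hc : c ≤ a0) (hbc : e b = e c) : b = c :=
  le_antisymm ((h.le b hb c hc).2 hbc.le) ((h.le c hc b hb).2 hbc.ge)

theorem Iso.mono (h : Iso e a0) {b c : A} (hc : c ≤ a0) (hbc : b ≤ c) : e b ≤ e c :=
  (h.le b (hbc.trans hc) c hc).1 hbc

theorem Iso.bot (h : Iso e a0) : e ⊥ = ⊥ := by
  obtain ⟨b, hb, hb'⟩ := h.surj ⊥ bot_le
  exact le_bot_iff.1 (hb' ▸ h.mono hb bot_le)

theorem Iso.inf (h : Iso e a0) {b c : A} (hb : b ≤ a0) (hc : c ≤ a0) :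
    e (b ⊓ c) = e b ⊓ e c := by
  apply le_antisymm
  · exact le_inf (h.mono hb inf_le_left) (h.mono hc inf_le_right)
  · obtain ⟨x, hx, hx'⟩ := h.surj (e b ⊓ e c) (inf_le_left.trans (h.mono le_rfl hb))
    rw [← hx']
    refine h.mono (inf_le_left.trans hb) (le_inf ?_ ?_)
    · exact (h.le x hx b hb).2 (hx' ▸ inf_le_left)
    · exact (h.le x hx c hc).2 (hx' ▸ inf_le_right)

theorem Iso.sup (h : Iso e a0) {b c : A} (hb : b ≤ a0) (hc : c ≤ a0) :
    e (b ⊔ c) = e b ⊔ e c := by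
  apply le_antisymm
  · obtain ⟨x, hx, hx'⟩ := h.surj (e b ⊔ e c) (sup_le (h.mono le_rfl hb) (h.mono le_rfl hc))
    rw [← hx']
    refine h.mono hx (sup_le ?_ ?_)
    · exact (h.le b hb x hx).2 (hx' ▸ le_sup_left)
    · exact (h.le c hc x hx).2 (hx' ▸ le_sup_right)
  · exact sup_le (h.mono (sup_le hb hc) le_sup_left) (h.mono (sup_le hb hc) le_sup_right)

theorem Iso.sdiff (h : Iso e a0) {b c : A} (hb : b ≤ a0) (hc : c ≤ a0) :
    e (b \ c) = e b \ e c := by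
  symm
  apply sdiff_unique
  · rw [← h.inf hb hc, ← h.sup (inf_le_left.trans hb) (sdiff_le.trans hb), sup_inf_sdiff]
  · rw [← h.inf hb hc, ← h.inf (inf_le_left.trans hb) (sdiff_le.trans hb), inf_inf_sdiff, h.bot]

theorem Iso.fsup (h : Iso e a0) {ι : Type} (s : Finset ι) (f : ι → A) (hf : ∀ i, f i ≤ a0) :
    e (s.sup f) = s.sup fun i => e (f i) := by
  classical
  induction s using Finset.induction_on with
  | empty => exact h.bot
  | insert i s _ ih =>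
    rw [Finset.sup_insert, Finset.sup_insert, h.sup (hf i) (Finset.sup_le fun i _ => hf i), ih]

theorem dd_down {D0 : A → Prop} (hD : ∀ a b, b ≤ a → D0 a → D0 b) :
    ∀ (n : ℕ) (a b : A), b ≤ a → DD D0 n a → DD D0 n b
  | 0, a, b, hab, h => hD a b hab h
  | _ + 1, _, _, hab, ⟨s, h1, h2⟩ => ⟨s, h1, hab.trans h2⟩

theorem dd_imp (h : Iso e a0) {D0 : A → Prop} {D0' : A' → Prop}
    (hD : ∀ a b, b ≤ a → D0 a → D0 b) (hDD : ∀ b ≤ a0, D0 b → D0' (e b)) :
    ∀ (n : ℕ) (a : A), a ≤ a0 → DD D0 n a → DD D0' n (e a)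
  | 0, a, ha, h0 => hDD a ha h0
  | n + 1, a, ha, ⟨s, h1, h2⟩ => by
    classical
    refine ⟨s.image fun c => e (c ⊓ a0), ?_, ?_⟩
    · intro c' hc' d' hd'
      obtain ⟨c, hc, rfl⟩ := Finset.mem_image.1 hc'
      obtain ⟨d, hd, rfl⟩ := h.surj d' (hd'.trans (h.mono le_rfl inf_le_right))
      have hdc : d ≤ c ⊓ a0 := (h.le d hd _ inf_le_right).2 hd'
      rcases h1 c hc d (hdc.trans inf_le_left) with h3 | h3
      · exact Or.inl (dd_imp h hD hDD n d hd h3)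
      · right
        have h4 : DD D0 n ((c ⊓ a0) \ d) := dd_down hD n _ _ (sdiff_le_sdiff_right inf_le_left) h3
        have h5 := dd_imp h hD hDD n _ (sdiff_le.trans inf_le_right) h4
        rw [h.sdiff inf_le_right hd] at h5
        exact h5
    · rw [Finset.sup_image]
      have h3 : a ≤ s.sup fun c => c ⊓ a0 := by
        have h4 : a ≤ s.sup id ⊓ a0 := le_inf h2 ha
        rw [Finset.sup_inf_distrib_right] at h4
        exact h4
      have h5 := h.mono (Finset.sup_le fun _ _ => inf_le_right) h3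
      rw [h.fsup s (fun c => c ⊓ a0) (fun _ => inf_le_right)] at h5
      exact h5

theorem Iso.symm (h : Iso e a0) : ∃ e' : A' → A, Iso e' (e a0) ∧ (∀ b ≤ a0, e' (e b) = b) ∧
    ∀ c ≤ e a0, e' c ≤ a0 ∧ e (e' c) = c := by
  classical
  have h1 : ∀ c : A', ∃ b : A, c ≤ e a0 → b ≤ a0 ∧ e b = c := by
    intro c
    by_cases hc : c ≤ e a0
    · obtain ⟨b, hb, hb'⟩ := h.surj c hc
      exact ⟨b, fun _ => ⟨hb, hb'⟩⟩
    · exact ⟨⊥, fun h' => (hc h').elim⟩
  choose e' he' using h1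
  have h2 : ∀ b ≤ a0, e' (e b) = b := fun b hb =>
    h.inj (he' _ (h.mono le_rfl hb)).1 hb (he' _ (h.mono le_rfl hb)).2
  refine ⟨e', ⟨?_, ?_⟩, h2, he'⟩
  · intro b hb c hc
    rw [h.le _ (he' b hb).1 _ (he' c hc).1, (he' b hb).2, (he' c hc).2]
  · intro c hc
    rw [h2 a0 le_rfl] at hc
    exact ⟨e c, h.mono le_rfl hc, h2 c hc⟩

theorem dd_iff (h : Iso e a0) {D0 : A → Prop} {D0' : A' → Prop}
    (hD : ∀ a b, b ≤ a → D0 a → D0 b) (hD' : ∀ a b, b ≤ a → D0' a → D0' b)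
    (hDD : ∀ b ≤ a0, (D0' (e b) ↔ D0 b)) (n : ℕ) {a : A} (ha : a ≤ a0) :
    DD D0' n (e a) ↔ DD D0 n a := by
  constructor
  · intro h1
    obtain ⟨e', h2, h3, h4⟩ := h.symm
    have h5 := dd_imp h2 hD' (D0' := D0) (fun b hb hb' => by
      rw [← hDD _ (h4 b hb).1, (h4 b hb).2]
      exact hb') n (e a) (h.mono le_rfl ha) h1
    rw [h3 a ha] at h5
    exact h5
  · exact dd_imp h hD (fun b hb => (hDD b hb).2) n a ha

theorem ftr (h : Iso e a0) {a : A} (ha : a ≤ a0) (P : A' → Prop) :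
    (∀ c ≤ e a, P c) ↔ ∀ c ≤ a, P (e c) := by
  constructor
  · intro h1 c hc
    exact h1 _ (h.mono ha hc)
  · intro h1 c hc
    obtain ⟨b, hb, rfl⟩ := h.surj c (hc.trans (h.mono le_rfl ha))
    exact h1 b ((h.le b hb a ha).2 hc)

theorem etr (h : Iso e a0) {a : A} (ha : a ≤ a0) (P : A' → Prop) :
    (∃ c ≤ e a, P c) ↔ ∃ c ≤ a, P (e c) := by
  constructor
  · rintro ⟨c, hc, h1⟩
    obtain ⟨b, hb, rfl⟩ := h.surj c (hc.trans (h.mono le_rfl ha))
    exact ⟨b, (h.le b hb a ha).2 hc, h1⟩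
  · rintro ⟨c, hc, h1⟩
    exact ⟨_, h.mono ha hc, h1⟩

theorem al_iff (h : Iso e a0) {D0 : A → Prop} {D0' : A' → Prop} (n : ℕ)
    (hd : ∀ a ≤ a0, (DD D0' n (e a) ↔ DD D0 n a)) {a : A} (ha : a ≤ a0) :
    AL D0' n (e a) ↔ AL D0 n a := by
  unfold AL
  rw [ftr h ha]
  refine forall_congr' fun c => forall_congr' fun hc => ?_
  have hca := hc.trans ha
  rw [hd c hca, etr h hca]
  refine imp_congr_right fun _ => exists_congr fun d => and_congr_right fun hdc => ?_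
  rw [hd d (hdc.trans hca), ← h.sdiff hca (hdc.trans hca), hd _ (sdiff_le.trans hca)]

theorem pp_iff (h : Iso e a0) {D0 : A → Prop} {D0' : A' → Prop} (n : ℕ)
    (hd : ∀ n, ∀ a ≤ a0, (DD D0' n (e a) ↔ DD D0 n a)) {a : A} (ha : a ≤ a0) :
    PP D0' n (e a) ↔ PP D0 n a := by
  unfold PP
  rw [hd n a ha, al_iff h n (hd n) ha, ftr h ha]
  refine and_congr_right fun _ => and_congr_right fun _ =>
    forall_congr' fun c => forall_congr' fun hc => forall_congr' fun m => imp_congr_right fun _ => ?_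
  rw [al_iff h m (hd m) (hc.trans ha), hd n c (hc.trans ha)]

end

/-- TRW: codes are invariant under isomorphisms of intervals -/
theorem TRW : S_TRW := by
  intro A A' _ _ e a0 D0 D0' he hs hDD hD hD'
  have h : Iso e a0 := ⟨he, hs⟩
  have hd : ∀ n, ∀ a ≤ a0, (DD D0' n (e a) ↔ DD D0 n a) :=
    fun n a ha => dd_iff h hD hD' hDD n ha
  ext n
  show (∃ b ≤ e a0, PP D0' n b) ↔ ∃ b ≤ a0, PP D0 n b
  rw [etr h le_rfl]
  refine exists_congr fun b => and_congr_right fun hb => ?_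
  exact pp_iff h n hd hb

end Pool.Agent.N8.VB.TRW
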